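import Pool.Agent.MWT.Stmts

/-!
# Squad MWT, row THX (MP_23468a_al): places of the projections
-/

set_option autoImplicit false

namespace Pool.Agent.MWT.H77

open Pool.Agent.Helper14_MV Pool.Agent.Helper2_MV Pool.Agent.MVD Pool.Agent.MWT

/-- the substitution of the separators -/
def gs (κ : ℕ → ℕ) (a : ℕ) : List ℕ :=
  if a % 3 = 2 ∧ a ≠ 2 then
    (if κ (3 * (((a - 2) / 3 - 1) / 7) + 1) = ((a - 2) / 3 - 1) % 7 then
      [3 * (((a - 2) / 3 - 1) / 7 + 1) + 2] else [])
  else [a]

theorem gs_id (κ : ℕ → ℕ) (L : List ℕ) (h : ∀ a ∈ L, a % 3 ≠ 2) : L.flatMap (gs κ) = L := by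
  induction L with
  | nil => rfl
  | cons a L ih =>
    rw [List.flatMap_cons, ih (fun b hb => h b (List.mem_cons_of_mem _ hb))]
    have e : gs κ a = [a] := if_neg (fun hh => h a (by simp) hh.1)
    rw [e]
    rfl

theorem one7 (K : ℕ) (hK : K < 7) (x : List ℕ) :
    (List.range 7).flatMap (fun k => if K = k then x else []) = x := by
  have e : List.range 7 = [0, 1, 2, 3, 4, 5, 6] := rfl
  rw [e]
  have h : K = 0 ∨ K = 1 ∨ K = 2 ∨ K = 3 ∨ K = 4 ∨ K = 5 ∨ K = 6 := by omega
  rcases h with rfl | rfl | rfl | rfl | rfl | rfl | rfl <;> simp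

theorem bp_sub (κ : ℕ → ℕ) (m : ℕ) (hκ : ∀ d < m, κ (3 * d + 1) < 7) (L : List ℕ)
    (hL : ∀ a ∈ L, a % 3 ≠ 2) : ∀ R : List ℕ, (∀ r ∈ R, r ≤ m) →
      (Bp (R7 R) (plk κ) L).flatMap (gs κ) = Bp R pl0 L := by
  intro R
  induction R with
  | nil =>
    intro _
    rfl
  | cons r R ih =>
    intro hR
    have ih' := ih (fun s hs => hR s (List.mem_cons_of_mem _ hs))
    have e1 : Bp (R7 (r :: R)) (plk κ) L = Bw (if r = 0 then [0] else
        (List.range 7).map (fun k => 7 * (r - 1) + k + 1)) (fun r => if r = 0 then L else plk κ r) ++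
          Bp (R7 R) (plk κ) L := by
      simp only [Bp, Bw, R7, List.flatMap_cons, List.flatMap_append]
    have e2 : Bp (r :: R) pl0 L = ((if r = 0 then L else pl0 r) ++ [3 * r + 2]) ++ Bp R pl0 L := by
      simp only [Bp, Bw, List.flatMap_cons]
    rw [e1, e2, List.flatMap_append, ih']
    congr 1
    by_cases hr : r = 0
    · subst hr
      have e3 : Bw (if (0 : ℕ) = 0 then [0] else (List.range 7).map (fun k => 7 * (0 - 1) + k + 1))
          (fun r => if r = 0 then L else plk κ r) = L ++ [2] := by
        simp [Bw]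
      rw [e3, List.flatMap_append, gs_id κ L hL]
      simp [gs]
    · obtain ⟨d, rfl⟩ : ∃ d, r = d + 1 := ⟨r - 1, by omega⟩
      have hd : d < m := by
        have := hR (d + 1) (by simp)
        omega
      rw [if_neg hr, if_neg hr]
      have e3 : Bw ((List.range 7).map (fun k => 7 * (d + 1 - 1) + k + 1))
          (fun r => if r = 0 then L else plk κ r) =
            (List.range 7).flatMap (fun k => plk κ (7 * d + k + 1) ++ [3 * (7 * d + k + 1) + 2]) := by
        simp only [Bw, List.flatMap_map]
        refine List.flatMap_congr fun k _ => ?_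
        have h0 : 7 * (d + 1 - 1) + k + 1 = 7 * d + k + 1 := by
          rw [Nat.add_sub_cancel]
        rw [h0, if_neg (Nat.succ_ne_zero _)]
      rw [e3, List.flatMap_assoc]
      have e4 : (List.range 7).flatMap (fun k =>
          (plk κ (7 * d + k + 1) ++ [3 * (7 * d + k + 1) + 2]).flatMap (gs κ)) =
          (List.range 7).flatMap (fun k => if κ (3 * d + 1) = k then
            pl0 (d + 1) ++ [3 * (d + 1) + 2] else []) := by
        refine List.flatMap_congr fun k hk => ?_
        have hk7 : k < 7 := List.mem_range.1 hk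
        have h1 : (7 * d + k + 1 - 1) / 7 = d := by omega
        have h2 : (7 * d + k + 1 - 1) % 7 = k := by omega
        have h3 : plk κ (7 * d + k + 1) = if κ (3 * d + 1) = k then [3 * d + 1] else [] := by
          unfold plk
          rw [h1, h2]
        have h4 : gs κ (3 * (7 * d + k + 1) + 2) =
            if κ (3 * d + 1) = k then [3 * (d + 1) + 2] else [] := by
          unfold gs
          have h5 : (3 * (7 * d + k + 1) + 2 - 2) / 3 - 1 = 7 * d + k := by omega
          have h6 : (7 * d + k) / 7 = d := by omega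
          have h7 : (7 * d + k) % 7 = k := by omega
          rw [if_pos ⟨by omega, by omega⟩, h5, h6, h7]
        rw [List.flatMap_append, h3]
        have h8 : [3 * (7 * d + k + 1) + 2].flatMap (gs κ) = gs κ (3 * (7 * d + k + 1) + 2) := by
          simp
        rw [h8, h4]
        by_cases hK : κ (3 * d + 1) = k
        · rw [if_pos hK, if_pos hK, if_pos hK, gs_id κ [3 * d + 1] (by
            intro a ha
            rw [List.mem_singleton] at ha
            omega)]
          simp [pl0]
        · rw [if_neg hK, if_neg hK, if_neg hK]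
          rfl
      rw [e4, one7 _ (hκ d hd)]

theorem thx (h1 : PerStmt) : ThxStmt := by
  intro n β m R c κ hC hR hκ
  obtain ⟨p1, p2, p3, p4⟩ := h1 m R hR
  refine ⟨⟨p1, p2, ?_, ?_⟩, ?_⟩
  · intro d hd
    have hK := hκ d hd
    refine ⟨7 * d + κ (3 * d + 1) + 1, p3 _ (by omega), by omega, ?_, ?_⟩
    · have e1 : (7 * d + κ (3 * d + 1) + 1 - 1) / 7 = d := by omega
      have e2 : (7 * d + κ (3 * d + 1) + 1 - 1) % 7 = κ (3 * d + 1) := by omega
      unfold plk
      rw [e1, e2, if_pos rfl]
    · intro s _ hs0 hsr hm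
      unfold plk at hm
      split at hm
      · rename_i hh
        rw [List.mem_singleton] at hm
        have e1 : (s - 1) / 7 = d := by omega
        rw [e1] at hh
        omega
      · simp at hm
  · intro r hr hr0
    rcases p4 r hr with h0 | ⟨b, hb, rfl⟩
    · exact absurd h0 hr0
    · unfold plk
      split
      · exact Or.inr ⟨(b + 1 - 1) / 7, by omega, rfl⟩
      · exact Or.inl rfl
  · intro hT
    have hle : ∀ r ∈ R, r ≤ m := by
      intro r hr
      have := List.mem_range.1 (hR.mem_iff.1 hr)
      omega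
    have hc : ∀ a ∈ c, a % 3 ≠ 2 := by
      intro a ha
      rcases hC.lo a ha with ⟨d, _, h2⟩ | ⟨h2, _⟩
      · omega
      · omega
    have h2 := RR.sub (gs κ) hT
    rw [bp_sub κ m hκ _ (by
      intro a ha
      rcases List.mem_cons.1 ha with rfl | ha
      · decide
      · rcases List.mem_append.1 ha with ha | ha
        · exact hc a ha
        · rw [List.mem_singleton.1 ha]
          decide) R hle, bp_sub κ m hκ _ (by
      intro a ha
      rcases List.mem_append.1 ha with ha | ha
      · rw [(List.mem_replicate.1 ha).2]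
        decide
      · rcases List.mem_append.1 ha with ha | ha
        · exact hc a ha
        · rw [(List.mem_replicate.1 ha).2]
          decide) R hle] at h2
    exact h2

end Pool.Agent.MWT.H77
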